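import Pool.Agent.Helper96.Stx.DefsY
import Pool.Agent.Helper96.Stx.Fin
import Pool.Agent.Helper89.Stx.Defs

/-!
# Anisotropic Strichartz estimates, one frozen variable: level set bounds in the cube

`crit_real_of`, `mid_real_of`: the level set bounds of the finite model give `S_crit` and `S_mid'`
(the transfer `lev_real` and the `L²` bound `l2_real` are hypotheses `S_levr`, `S_l2r`).
-/

set_option autoImplicit false

namespace Stx

open Finset MeasureTheory Pool.Agent.Helper64.AS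

/-- the statement of `lev_real` -/
def S_levr (r : ℕ) : Prop :=
  ∀ (N' : ℕ) (lam B : ℝ), 0 < lam → LevB r N' lam B →
    ∀ (b : Fin (r + 1) → ℝ) (N : ℝ), 0 < N → N + 2 ≤ N' → |b 0| + N + 2 ≤ (N' : ℝ) ^ 2 →
    ∀ a : ℤ × (Fin r → ℤ) → ℂ, ∑ ξ ∈ box r b N, ‖a ξ‖ ^ 2 ≤ 1 →
    (volume {z ∈ cube r | 3 * lam < ‖FF r (box r b N) a z.1 z.2‖}).toReal ≤
      3 * (2 * Real.pi) ^ (r + 1) * B

/-- the statement of `l2_real` -/
def S_l2r (r : ℕ) : Prop :=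
  ∀ (b : Fin (r + 1) → ℝ) (N : ℝ) (a : ℤ × (Fin r → ℤ) → ℂ),
    ∫ z in cube r, ‖FF r (box r b N) a z.1 z.2‖ ^ 2 ≤
      2 * (2 * Real.pi) ^ (r + 1) * ∑ ξ ∈ box r b N, ‖a ξ‖ ^ 2

/-- Chebyshev -/
lemma cheb (r : ℕ) (hl2 : S_l2r r) (b : Fin (r + 1) → ℝ) (N : ℝ) (a : ℤ × (Fin r → ℤ) → ℂ)
    (ha : ∑ ξ ∈ box r b N, ‖a ξ‖ ^ 2 ≤ 1) (lam : ℝ) (hlam : 0 < lam) :
    (volume {z ∈ cube r | lam < ‖FF r (box r b N) a z.1 z.2‖}).toReal ≤
      2 * (2 * Real.pi) ^ (r + 1) * lam ^ (-2 : ℝ) := by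
  have hpi : 0 < Real.pi := Real.pi_pos
  have hmc : MeasurableSet (cube r) := (cube_comp r).isClosed.measurableSet
  have hcont := FF_cont r (box r b N) a
  have hint : Integrable (fun z : ℝ × (Fin r → ℝ) => ‖FF r (box r b N) a z.1 z.2‖ ^ 2)
      (volume.restrict (cube r)) :=
    (Continuous.continuousOn (hcont.norm.pow 2)).integrableOn_compact (cube_comp r)
  have h1 := mul_meas_ge_le_integral_of_nonneg
    (μ := volume.restrict (cube r))
    (f := fun z : ℝ × (Fin r → ℝ) => ‖FF r (box r b N) a z.1 z.2‖ ^ 2)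
    (Filter.Eventually.of_forall fun z => by positivity) hint (lam ^ 2)
  have hms : MeasurableSet {z : ℝ × (Fin r → ℝ) | lam ^ 2 ≤ ‖FF r (box r b N) a z.1 z.2‖ ^ 2} :=
    (isClosed_le continuous_const (hcont.norm.pow 2)).measurableSet
  have h2 : (volume {z ∈ cube r | lam < ‖FF r (box r b N) a z.1 z.2‖}).toReal ≤
      (volume.restrict (cube r)).real
        {z : ℝ × (Fin r → ℝ) | lam ^ 2 ≤ ‖FF r (box r b N) a z.1 z.2‖ ^ 2} := by
    rw [measureReal_def, Measure.restrict_apply hms]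
    apply ENNReal.toReal_mono
    · exact (lt_of_le_of_lt (measure_mono Set.inter_subset_right)
        (cube_comp r).measure_lt_top).ne
    · apply measure_mono
      rintro z ⟨hz1, hz2⟩
      refine ⟨?_, hz1⟩
      show lam ^ 2 ≤ ‖FF r (box r b N) a z.1 z.2‖ ^ 2
      exact pow_le_pow_left₀ hlam.le hz2.le 2
  have h3 := hl2 b N a
  have h4 : lam ^ 2 * (volume {z ∈ cube r | lam < ‖FF r (box r b N) a z.1 z.2‖}).toReal ≤
      2 * (2 * Real.pi) ^ (r + 1) := by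
    calc lam ^ 2 * (volume {z ∈ cube r | lam < ‖FF r (box r b N) a z.1 z.2‖}).toReal
        ≤ lam ^ 2 * ((volume.restrict (cube r)).real
            {z : ℝ × (Fin r → ℝ) | lam ^ 2 ≤ ‖FF r (box r b N) a z.1 z.2‖ ^ 2}) :=
          mul_le_mul_of_nonneg_left h2 (by positivity)
      _ ≤ ∫ z in cube r, ‖FF r (box r b N) a z.1 z.2‖ ^ 2 := h1
      _ ≤ 2 * (2 * Real.pi) ^ (r + 1) * ∑ ξ ∈ box r b N, ‖a ξ‖ ^ 2 := h3
      _ ≤ 2 * (2 * Real.pi) ^ (r + 1) * 1 := mul_le_mul_of_nonneg_left ha (by positivity)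
      _ = _ := mul_one _
  have e : lam ^ (-2 : ℝ) = (lam ^ 2)⁻¹ := by
    rw [Real.rpow_neg hlam.le]
    norm_num
  rw [e, ← div_eq_mul_inv, le_div_iff₀ (by positivity), mul_comm]
  exact h4

/-- the choice of the natural number `N'` -/
lemma choose_N (K N : ℝ) (hK : 0 < K) (hN : 1 < N) (b₀ : ℝ) (hb : |b₀| ≤ K * N ^ 2) :
    ∃ N' : ℕ, 1 ≤ N' ∧ N + 2 ≤ N' ∧ |b₀| + N + 2 ≤ (N' : ℝ) ^ 2 ∧ N ≤ N' ∧
      (N' : ℝ) ≤ (K + 4) * N := by
  refine ⟨⌈(K + 3) * N⌉₊, ?_⟩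
  have h1 : (K + 3) * N ≤ (⌈(K + 3) * N⌉₊ : ℝ) := Nat.le_ceil _
  have h2 : (⌈(K + 3) * N⌉₊ : ℝ) < (K + 3) * N + 1 := Nat.ceil_lt_add_one (by positivity)
  have h3 : N + 2 ≤ (K + 3) * N := by nlinarith
  refine ⟨?_, h3.trans h1, ?_, by linarith, by linarith⟩
  · rw [Nat.one_le_ceil_iff]; positivity
  · have h4 : ((K + 3) * N) ^ 2 ≤ (⌈(K + 3) * N⌉₊ : ℝ) ^ 2 :=
      pow_le_pow_left₀ (by positivity) h1 2
    have h5 : |b₀| + N + 2 ≤ ((K + 3) * N) ^ 2 := by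
      have hN2 : N ≤ N ^ 2 := by nlinarith
      have hN3 : 1 ≤ N ^ 2 := by nlinarith
      have : ((K + 3) * N) ^ 2 = (K ^ 2 + 6 * K + 9) * N ^ 2 := by ring
      rw [this]
      nlinarith [mul_pos hK (by positivity : 0 < N ^ 2), sq_nonneg K]
    exact h5.trans h4

/-- comparison of powers -/
lemma pow_cmp {N N' D s : ℝ} (hN : 1 < N) (hNN : N ≤ N') (hD : 1 ≤ D) (hD' : N' ≤ D * N) :
    N' ^ s ≤ D ^ |s| * N ^ s := by
  have hN0 : 0 < N := by linarith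
  have hN'0 : 0 < N' := by linarith
  rcases le_total 0 s with hs | hs
  · rw [abs_of_nonneg hs, ← Real.mul_rpow (by linarith) hN0.le]
    exact Real.rpow_le_rpow hN'0.le hD' hs
  · have h1 : N' ^ s ≤ N ^ s := Real.rpow_le_rpow_of_nonpos hN0 hNN hs
    have h2 : 1 ≤ D ^ |s| := Real.one_le_rpow hD (abs_nonneg s)
    have h3 : 0 ≤ N ^ s := Real.rpow_nonneg hN0.le s
    nlinarith

theorem crit_real_of (r : ℕ) (hlev : S_levr r) (hl2 : S_l2r r)
    (h : ∃ c : ℝ, 0 < c ∧ ∃ C : ℝ, 0 < C ∧ ∀ N : ℕ, 1 ≤ N →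
    ∀ lam : ℝ, (N : ℝ) ^ (((r : ℝ) + 1) / 4 - c) ≤ lam →
    LevB r N lam (C * (N : ℝ) ^ (-c) * lam ^ (-2 : ℝ))) : S_crit r := by
  obtain ⟨c, hc, C, hC, h⟩ := h
  refine ⟨c / 2, by positivity, ?_⟩
  intro K hK
  have hpi : 0 < Real.pi := Real.pi_pos
  set s : ℝ := ((r : ℝ) + 1) / 4 - c with hs
  set D : ℝ := 3 * (K + 4) ^ |s| with hD
  have hDpos : 0 < D := by positivity
  refine ⟨3 * (2 * Real.pi) ^ (r + 1) * (9 * C) + 2 * (2 * Real.pi) ^ (r + 1) * D,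
    by positivity, ?_⟩
  intro b N lam a hN hb hlam ha
  have hN0 : 0 < N := by linarith
  have hlam0 : 0 < lam := lt_of_lt_of_le (Real.rpow_pos_of_pos hN0 _) hlam
  have hl2p : 0 < lam ^ (-2 : ℝ) := Real.rpow_pos_of_pos hlam0 _
  have hNc : 0 < N ^ (-(c / 2)) := Real.rpow_pos_of_pos hN0 _
  obtain ⟨N', hN1, hN2, hN3, hN4, hN5⟩ := choose_N K N hK hN (b 0) hb
  have hN'0 : (0 : ℝ) < N' := by linarith
  have hpc : (N' : ℝ) ^ s ≤ (K + 4) ^ |s| * N ^ s := pow_cmp hN hN4 (by linarith) hN5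
  rcases le_or_gt (3 * (N' : ℝ) ^ s) lam with hcase | hcase
  · have h1 := h N' hN1 (lam / 3) (by linarith)
    have h2 := hlev N' (lam / 3) _ (by positivity) h1 b N hN0 hN2 hN3 a ha
    rw [mul_div_cancel₀ _ (by norm_num : (3 : ℝ) ≠ 0)] at h2
    have h3 : (lam / 3) ^ (-2 : ℝ) = 9 * lam ^ (-2 : ℝ) := by
      rw [Real.div_rpow hlam0.le (by norm_num), Real.rpow_neg (by norm_num : (0 : ℝ) ≤ 3)]
      norm_num
      ring
    have h4 : (N' : ℝ) ^ (-c) ≤ N ^ (-(c / 2)) := by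
      calc (N' : ℝ) ^ (-c) ≤ N ^ (-c) :=
            Real.rpow_le_rpow_of_nonpos hN0 hN4 (by linarith)
        _ ≤ N ^ (-(c / 2)) := Real.rpow_le_rpow_of_exponent_le hN.le (by linarith)
    rw [h3] at h2
    refine h2.trans ?_
    calc 3 * (2 * Real.pi) ^ (r + 1) * (C * (N' : ℝ) ^ (-c) * (9 * lam ^ (-2 : ℝ)))
        = 3 * (2 * Real.pi) ^ (r + 1) * (9 * C) * lam ^ (-2 : ℝ) * (N' : ℝ) ^ (-c) := by ring
      _ ≤ 3 * (2 * Real.pi) ^ (r + 1) * (9 * C) * lam ^ (-2 : ℝ) * N ^ (-(c / 2)) :=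
          mul_le_mul_of_nonneg_left h4 (by positivity)
      _ ≤ (3 * (2 * Real.pi) ^ (r + 1) * (9 * C) + 2 * (2 * Real.pi) ^ (r + 1) * D) *
            lam ^ (-2 : ℝ) * N ^ (-(c / 2)) := by
          apply mul_le_mul_of_nonneg_right _ hNc.le
          apply mul_le_mul_of_nonneg_right _ hl2p.le
          have : 0 < 2 * (2 * Real.pi) ^ (r + 1) * D := by positivity
          linarith
      _ = _ := by ring
  · have h1 : N ^ (((r : ℝ) + 1) / 4 - c / 2) < D * N ^ s := by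
      calc N ^ (((r : ℝ) + 1) / 4 - c / 2) ≤ lam := hlam
        _ < 3 * (N' : ℝ) ^ s := hcase
        _ ≤ 3 * ((K + 4) ^ |s| * N ^ s) := by linarith
        _ = D * N ^ s := by rw [hD]; ring
    have h2 : N ^ (((r : ℝ) + 1) / 4 - c / 2) = N ^ (c / 2) * N ^ s := by
      rw [← Real.rpow_add hN0]
      congr 1
      rw [hs]; ring
    rw [h2] at h1
    have h3 : N ^ (c / 2) < D := lt_of_mul_lt_mul_right h1 (Real.rpow_nonneg hN0.le s)
    have h4 : 1 ≤ D * N ^ (-(c / 2)) := by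
      have h5 : N ^ (c / 2) * N ^ (-(c / 2)) = 1 := by
        rw [← Real.rpow_add hN0]; simp
      rw [← h5]
      exact mul_le_mul_of_nonneg_right h3.le hNc.le
    refine (cheb r hl2 b N a ha lam hlam0).trans ?_
    calc 2 * (2 * Real.pi) ^ (r + 1) * lam ^ (-2 : ℝ)
        ≤ 2 * (2 * Real.pi) ^ (r + 1) * lam ^ (-2 : ℝ) * (D * N ^ (-(c / 2))) :=
          le_mul_of_one_le_right (by positivity) h4
      _ = (2 * (2 * Real.pi) ^ (r + 1) * D) * (N ^ (-(c / 2)) * lam ^ (-2 : ℝ)) := by ring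
      _ ≤ (3 * (2 * Real.pi) ^ (r + 1) * (9 * C) + 2 * (2 * Real.pi) ^ (r + 1) * D) *
            (N ^ (-(c / 2)) * lam ^ (-2 : ℝ)) := by
          apply mul_le_mul_of_nonneg_right _ (by positivity)
          have : 0 < 3 * (2 * Real.pi) ^ (r + 1) * (9 * C) := by positivity
          linarith
      _ = _ := by ring

theorem mid_real_of (r : ℕ) (hlev : S_levr r) (hl2 : S_l2r r)
    (h : ∀ ε : ℝ, 0 < ε → ∃ C : ℝ, 0 < C ∧ ∀ N : ℕ, 1 ≤ N →
    ∀ lam : ℝ, (N : ℝ) ^ (((r : ℝ) + 1) / 4 + ε) ≤ lam →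
    LevB r N lam (C * (N : ℝ) ^ ε * lam ^ (-(2 + 2 / ((r : ℝ) + 1))))) : S_mid' r := by
  intro ε K hε hK
  obtain ⟨C, hC, h⟩ := h (ε / 2) (by positivity)
  have hpi : 0 < Real.pi := Real.pi_pos
  have hr0 : (0 : ℝ) ≤ r := Nat.cast_nonneg r
  have hK4 : (1 : ℝ) ≤ K + 4 := by linarith
  set s : ℝ := ((r : ℝ) + 1) / 4 + ε / 2 with hs
  have hs0 : 0 < s := by rw [hs]; positivity
  set e : ℝ := 2 + 2 / ((r : ℝ) + 1) with he
  have he2 : 0 ≤ 2 / ((r : ℝ) + 1) := by positivity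
  have he0 : 0 < e := by rw [he]; positivity
  set D : ℝ := 3 * (K + 4) ^ s with hD
  have hDpos : 0 < D := by positivity
  set T : ℝ := D ^ (2 / ε) with hT
  have hTpos : 0 < T := by positivity
  set L : ℝ := D * T ^ s with hL
  have hLpos : 0 < L := by positivity
  refine ⟨3 * (2 * Real.pi) ^ (r + 1) * (C * (K + 4) ^ (ε / 2) * 3 ^ e) +
    2 * (2 * Real.pi) ^ (r + 1) * L ^ (2 / ((r : ℝ) + 1)), by positivity, ?_⟩
  intro b N lam a hN hb hlam ha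
  have hN0 : 0 < N := by linarith
  have hlam0 : 0 < lam := lt_of_lt_of_le (Real.rpow_pos_of_pos hN0 _) hlam
  have hlp : 0 < lam ^ (-e) := Real.rpow_pos_of_pos hlam0 _
  have hNe : 1 ≤ N ^ ε := Real.one_le_rpow hN.le hε.le
  obtain ⟨N', hN1, hN2, hN3, hN4, hN5⟩ := choose_N K N hK hN (b 0) hb
  have hN'0 : (0 : ℝ) < N' := by linarith
  have hpc : (N' : ℝ) ^ s ≤ (K + 4) ^ s * N ^ s := by
    rw [← Real.mul_rpow (by linarith) hN0.le]
    exact Real.rpow_le_rpow hN'0.le hN5 hs0.le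
  rcases le_or_gt (3 * (N' : ℝ) ^ s) lam with hcase | hcase
  · have h1 := h N' hN1 (lam / 3) (by linarith)
    have h2 := hlev N' (lam / 3) _ (by positivity) h1 b N hN0 hN2 hN3 a ha
    rw [mul_div_cancel₀ _ (by norm_num : (3 : ℝ) ≠ 0)] at h2
    have h3 : (lam / 3) ^ (-e) = 3 ^ e * lam ^ (-e) := by
      rw [Real.div_rpow hlam0.le (by norm_num), Real.rpow_neg (by norm_num : (0 : ℝ) ≤ 3),
        div_inv_eq_mul, mul_comm]
    have h4 : (N' : ℝ) ^ (ε / 2) ≤ (K + 4) ^ (ε / 2) * N ^ ε := by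
      calc (N' : ℝ) ^ (ε / 2) ≤ ((K + 4) * N) ^ (ε / 2) :=
            Real.rpow_le_rpow hN'0.le hN5 (by positivity)
        _ = (K + 4) ^ (ε / 2) * N ^ (ε / 2) := Real.mul_rpow (by linarith) hN0.le
        _ ≤ (K + 4) ^ (ε / 2) * N ^ ε := mul_le_mul_of_nonneg_left
            (Real.rpow_le_rpow_of_exponent_le hN.le (by linarith)) (by positivity)
    rw [h3] at h2
    refine h2.trans ?_
    calc 3 * (2 * Real.pi) ^ (r + 1) * (C * (N' : ℝ) ^ (ε / 2) * (3 ^ e * lam ^ (-e)))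
        = 3 * (2 * Real.pi) ^ (r + 1) * C * 3 ^ e * lam ^ (-e) * (N' : ℝ) ^ (ε / 2) := by ring
      _ ≤ 3 * (2 * Real.pi) ^ (r + 1) * C * 3 ^ e * lam ^ (-e) *
            ((K + 4) ^ (ε / 2) * N ^ ε) := mul_le_mul_of_nonneg_left h4 (by positivity)
      _ = 3 * (2 * Real.pi) ^ (r + 1) * (C * (K + 4) ^ (ε / 2) * 3 ^ e) *
            (N ^ ε * lam ^ (-e)) := by ring
      _ ≤ (3 * (2 * Real.pi) ^ (r + 1) * (C * (K + 4) ^ (ε / 2) * 3 ^ e) +
            2 * (2 * Real.pi) ^ (r + 1) * L ^ (2 / ((r : ℝ) + 1))) * (N ^ ε * lam ^ (-e)) := by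
          apply mul_le_mul_of_nonneg_right _ (by positivity)
          have : 0 < 2 * (2 * Real.pi) ^ (r + 1) * L ^ (2 / ((r : ℝ) + 1)) := by positivity
          linarith
      _ = _ := by ring
  · have h1 : N ^ (((r : ℝ) + 1) / 4 + ε) < D * N ^ s := by
      calc N ^ (((r : ℝ) + 1) / 4 + ε) ≤ lam := hlam
        _ < 3 * (N' : ℝ) ^ s := hcase
        _ ≤ 3 * ((K + 4) ^ s * N ^ s) := by linarith
        _ = D * N ^ s := by rw [hD]; ring
    have h2 : N ^ (((r : ℝ) + 1) / 4 + ε) = N ^ (ε / 2) * N ^ s := by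
      rw [← Real.rpow_add hN0]
      congr 1
      rw [hs]; ring
    rw [h2] at h1
    have h3 : N ^ (ε / 2) < D := lt_of_mul_lt_mul_right h1 (Real.rpow_nonneg hN0.le s)
    have h4 : N ≤ T := by
      have h5 : (N ^ (ε / 2)) ^ (2 / ε) ≤ D ^ (2 / ε) :=
        Real.rpow_le_rpow (by positivity) h3.le (by positivity)
      rw [← Real.rpow_mul hN0.le] at h5
      have h6 : ε / 2 * (2 / ε) = 1 := by field_simp
      rw [h6, Real.rpow_one] at h5
      exact h5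
    have h5 : lam ≤ L := by
      calc lam ≤ 3 * (N' : ℝ) ^ s := hcase.le
        _ ≤ 3 * ((K + 4) ^ s * N ^ s) := by linarith
        _ = D * N ^ s := by rw [hD]; ring
        _ ≤ D * T ^ s := mul_le_mul_of_nonneg_left (Real.rpow_le_rpow hN0.le h4 hs0.le) hDpos.le
    have h6 : lam ^ (-2 : ℝ) ≤ L ^ (2 / ((r : ℝ) + 1)) * lam ^ (-e) := by
      have h7 : lam ^ (-2 : ℝ) = lam ^ (2 / ((r : ℝ) + 1)) * lam ^ (-e) := by
        rw [← Real.rpow_add hlam0]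
        congr 1
        rw [he]; ring
      rw [h7]
      exact mul_le_mul_of_nonneg_right (Real.rpow_le_rpow hlam0.le h5 he2) hlp.le
    refine (cheb r hl2 b N a ha lam hlam0).trans ?_
    calc 2 * (2 * Real.pi) ^ (r + 1) * lam ^ (-2 : ℝ)
        ≤ 2 * (2 * Real.pi) ^ (r + 1) * (L ^ (2 / ((r : ℝ) + 1)) * lam ^ (-e)) :=
          mul_le_mul_of_nonneg_left h6 (by positivity)
      _ = (2 * (2 * Real.pi) ^ (r + 1) * L ^ (2 / ((r : ℝ) + 1))) * (1 * lam ^ (-e)) := by ring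
      _ ≤ (3 * (2 * Real.pi) ^ (r + 1) * (C * (K + 4) ^ (ε / 2) * 3 ^ e) +
            2 * (2 * Real.pi) ^ (r + 1) * L ^ (2 / ((r : ℝ) + 1))) * (N ^ ε * lam ^ (-e)) := by
          apply mul_le_mul _ (mul_le_mul_of_nonneg_right hNe hlp.le) (by positivity)
            (by positivity)
          have : 0 < 3 * (2 * Real.pi) ^ (r + 1) * (C * (K + 4) ^ (ε / 2) * 3 ^ e) := by
            positivity
          linarith
      _ = _ := by ring

end Stx
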